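import Pool.Agent.W885.TD.Main

set_option autoImplicit false

namespace Pool.Agent.H554T

open Pool.Agent.Helper227 Pool.Agent.W885.TD Filter Topology

theorem exists_cyl_subset {P : Set (ℕ → Bool)} (hP : IsOpen P) {a : ℕ → Bool} (ha : a ∈ P) :
    ∃ n, ∀ m ≥ n, cyl (pre a m) ⊆ P := by
  obtain ⟨I, u, h1, h2⟩ := isOpen_pi_iff.1 hP a ha
  refine ⟨I.sup id + 1, fun m hm b hb => h2 fun i hi => ?_⟩
  have h3 : i ≤ I.sup id := Finset.le_sup (f := id) hi
  have h4 := hb i (by simp; omega)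
  rw [getElem_pre] at h4
  rw [h4]
  exact (h1 i hi).2

theorem block_finset {P : Set (ℕ → Bool)} (hP : IsOpen P) (hd : Dense P)
    (U : Finset (List Bool)) :
    ∃ t : List Bool, t ≠ [] ∧ ∀ u ∈ U, cyl (u ++ t) ⊆ P := by
  classical
  induction U using Finset.induction_on with
  | empty => exact ⟨[true], by simp, by simp⟩
  | insert u U _ ih =>
    obtain ⟨t, ht, ht'⟩ := ih
    have hne : (cyl (u ++ t)).Nonempty := ⟨_, glue_mem (u ++ t) fun _ => true⟩
    obtain ⟨a, ha1, ha2⟩ := hd.inter_open_nonempty _ (isOpen_cyl (u ++ t)) hne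
    obtain ⟨n, hn⟩ := exists_cyl_subset hP ha2
    have h1 : pre a (u ++ t).length = u ++ t := mem_cyl_iff.1 ha1
    obtain ⟨t', ht''⟩ : ∃ t', pre a ((u ++ t).length + n) = (u ++ t) ++ t' := by
      have h2 : u ++ t <+: pre a ((u ++ t).length + n) := by
        rw [List.prefix_iff_eq_take]
        refine List.ext_getElem (by simp) fun i h3 h4 => ?_
        rw [List.getElem_take, getElem_pre]
        exact (ha1 i h3).symm
      obtain ⟨t', h3⟩ := h2
      exact ⟨t', h3.symm⟩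
    refine ⟨t ++ t', by simp [ht], fun v hv => ?_⟩
    rcases Finset.mem_insert.1 hv with rfl | hv
    · rw [← List.append_assoc, ← ht'']
      exact hn _ (by omega)
    · rw [← List.append_assoc]
      exact (cyl_subset (List.prefix_append _ _)).trans (ht' v hv)

theorem block {P : Set (ℕ → Bool)} (hP : IsOpen P) (hd : Dense P) (L : ℕ) :
    ∃ t : List Bool, t ≠ [] ∧ ∀ u : List Bool, u.length = L → cyl (u ++ t) ⊆ P := by
  obtain ⟨t, h1, h2⟩ := block_finset hP hd (List.finite_length_eq Bool L).toFinset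
  exact ⟨t, h1, fun u hu => h2 u (by simpa using hu)⟩

/-- All places of the block `[s k, s (k + 1))` have the value `v`. -/
def Full (v : Bool) (s : ℕ → ℕ) (Z : ℕ → Bool) (k : ℕ) : Prop :=
  ∀ m, s k ≤ m → m < s (k + 1) → Z m = v

theorem blocks_of_comeagre {W : Set (ℕ → Bool)} (v : Bool) {τ : List Bool}
    (hW : ∀ a b : ℕ → Bool, a ∈ W → (∀ n, b n ≠ a n → b n = v) → b ∈ W)
    (hm : IsMeagre (cyl τ ∩ Wᶜ)) :
    ∃ s : ℕ → ℕ, StrictMono s ∧ ∀ Z ∈ cyl τ, (∃ᶠ k in atTop, Full v s Z k) → Z ∈ W := by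
  classical
  obtain ⟨S, hS1, hS2, hS3, hS4⟩ := mem_residual_iff.1 (show (cyl τ ∩ Wᶜ)ᶜ ∈ residual _ from hm)
  obtain ⟨O, hO⟩ : ∃ O : ℕ → Set (ℕ → Bool), insert Set.univ S = Set.range O :=
    (hS3.insert _).exists_eq_range (Set.insert_nonempty _ _)
  have hO1 : ∀ n, IsOpen (O n) := fun n => by
    have h1 : O n ∈ insert Set.univ S := by rw [hO]; exact ⟨n, rfl⟩
    rcases h1 with h1 | h1
    · rw [h1]; exact isOpen_univ
    · exact hS1 _ h1
  have hO2 : ∀ n, Dense (O n) := fun n => by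
    have h1 : O n ∈ insert Set.univ S := by rw [hO]; exact ⟨n, rfl⟩
    rcases h1 with h1 | h1
    · rw [h1]; exact dense_univ
    · exact hS2 _ h1
  have hO3 : ∀ a, (∀ n, a ∈ O n) → a ∉ cyl τ ∩ Wᶜ := by
    intro a ha
    refine hS4 ?_
    intro t ht
    have h1 : t ∈ Set.range O := by rw [← hO]; exact Set.mem_insert_of_mem _ ht
    obtain ⟨n, rfl⟩ := h1
    exact ha n
  let P : ℕ → Set (ℕ → Bool) := fun k => ⋂ n ∈ Finset.range (k + 1), O n
  have hP1 : ∀ k, IsOpen (P k) := fun k => isOpen_biInter_finset fun n _ => hO1 n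
  have hP2 : ∀ k, Dense (P k) := fun k =>
    dense_biInter_of_isOpen (S := (Finset.range (k + 1) : Set ℕ)) (fun n _ => hO1 n)
      (Set.to_countable _) fun n _ => hO2 n
  choose tt ht1 ht2 using fun k L => block (hP1 k) (hP2 k) L
  obtain ⟨s, hs0, hs1⟩ : ∃ s : ℕ → ℕ, s 0 = τ.length ∧
      ∀ k, s (k + 1) = s k + (tt k (s k)).length :=
    ⟨fun k => Nat.rec τ.length (fun k r => r + (tt k r).length) k, rfl, fun k => rfl⟩
  have hs : StrictMono s := strictMono_nat_of_lt_succ fun k => by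
    rw [hs1]
    have := List.length_pos_iff.2 (ht1 k (s k))
    omega
  refine ⟨s, hs, fun Z hZ hfr => ?_⟩
  let Q : ℕ → ℕ → Prop := fun m k => Full v s Z k ∧ s k ≤ m ∧ m < s (k + 1)
  have huniq : ∀ m k k', Q m k → Q m k' → k = k' := by
    intro m k k' h1 h2
    rcases lt_trichotomy k k' with h | h | h
    · have := hs.monotone (show k + 1 ≤ k' by omega)
      have := h1.2.2
      have := h2.2.1
      omega
    · exact h
    · have := hs.monotone (show k' + 1 ≤ k by omega)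
      have := h1.2.1
      have := h2.2.2
      omega
  obtain ⟨Z', hZ'1, hZ'2⟩ : ∃ Z' : ℕ → Bool,
      (∀ m k, Q m k → Z' m = (tt k (s k)).getD (m - s k) false) ∧
      ∀ m, (¬ ∃ k, Q m k) → Z' m = Z m := by
    have h0 : ∀ m, ∃ b : Bool, (∀ k, Q m k → b = (tt k (s k)).getD (m - s k) false) ∧
        ((¬ ∃ k, Q m k) → b = Z m) := by
      intro m
      by_cases h : ∃ k, Q m k
      · obtain ⟨k, hk⟩ := h
        refine ⟨(tt k (s k)).getD (m - s k) false, fun k' hk' => ?_, fun h' => absurd ⟨k, hk⟩ h'⟩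
        rw [huniq m _ _ hk hk']
      · exact ⟨Z m, fun k hk => absurd ⟨k, hk⟩ h, fun _ => rfl⟩
    choose Z' h1 h2 using h0
    exact ⟨Z', h1, h2⟩
  have hZP : ∀ k, Full v s Z k → Z' ∈ P k := by
    intro k hk
    refine ht2 k (s k) (pre Z' (s k)) (by simp) ?_
    intro i hi
    by_cases h1 : i < s k
    · rw [List.getElem_append_left (by simpa using h1), getElem_pre]
    · rw [List.getElem_append_right (by simpa using h1)]
      have h2 : i < s (k + 1) := by
        rw [hs1]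
        simpa using hi
      rw [hZ'1 i k ⟨hk, by omega, h2⟩]
      simp only [length_pre]
      rw [List.getD_eq_getElem]
  have hZO : ∀ n, Z' ∈ O n := by
    intro n
    obtain ⟨k, hk, hk'⟩ := (hfr.and_eventually (eventually_ge_atTop n)).exists
    have h1 := hZP k hk
    simp only [P, Set.mem_iInter] at h1
    exact h1 n (by simp; omega)
  have hZτ : Z' ∈ cyl τ := by
    intro i hi
    rw [hZ'2 i, hZ i hi]
    rintro ⟨k, hk⟩
    have h1 := hs.monotone (Nat.zero_le k)
    have h2 := hk.2.1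
    omega
  have hZW : Z' ∈ W := by
    by_contra hc
    exact hO3 Z' hZO ⟨hZτ, hc⟩
  refine hW Z' Z hZW fun n hn => ?_
  by_contra hc
  refine hn (hZ'2 n ?_).symm
  rintro ⟨k, hk⟩
  exact hc (hk.1 n hk.2.1 hk.2.2)

/-- A common coarser partition. -/
theorem exists_coarser (s s' : ℕ → ℕ) (hs : StrictMono s) (hs' : StrictMono s') :
    ∃ r : ℕ → ℕ, StrictMono r ∧ ∀ (v : Bool) (Z : ℕ → Bool), (∃ᶠ k in atTop, Full v r Z k) →
      (∃ᶠ k in atTop, Full v s Z k) ∧ ∃ᶠ k in atTop, Full v s' Z k := by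
  let r : ℕ → ℕ := fun k => Nat.rec 0 (fun _ x => max (s (x + 1)) (s' (x + 1))) k
  have hr : ∀ k, r (k + 1) = max (s (r k + 1)) (s' (r k + 1)) := fun k => rfl
  have h1 : ∀ k, k ≤ s k := fun k => hs.id_le k
  have h2 : ∀ k, k ≤ s' k := fun k => hs'.id_le k
  have hrm : StrictMono r := strictMono_nat_of_lt_succ fun k => by
    rw [hr]
    have := h1 (r k + 1)
    omega
  have h3 : ∀ k, k ≤ r k := fun k => hrm.id_le k
  refine ⟨r, hrm, fun v Z hf => ⟨?_, ?_⟩⟩
  · rw [frequently_atTop] at hf ⊢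
    intro N
    obtain ⟨k, hk, hk'⟩ := hf N
    refine ⟨r k, hk.trans (h3 k), fun m hm1 hm2 => hk' m ((h1 _).trans hm1) ?_⟩
    rw [hr]
    omega
  · rw [frequently_atTop] at hf ⊢
    intro N
    obtain ⟨k, hk, hk'⟩ := hf N
    refine ⟨r k, hk.trans (h3 k), fun m hm1 hm2 => hk' m ((h2 _).trans hm1) ?_⟩
    rw [hr]
    omega

end Pool.Agent.H554T
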