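import Pool.Agent.H554T.Block

set_option autoImplicit false

namespace Pool.Agent.H554T

open Pool.Agent.Helper227 Pool.Agent.H685R3 Pool.Agent.W885.TD Filter Topology

theorem local_of_determined {V : Set (ℕ → Bool)}
    (hV : ∀ a b, a ∈ V → (∀ n, a n = true → b n = true) → b ∈ V)
    (h : ∀ σ, Determined (sat V (cc σ))) (σ : List Bool) :
    ∃ ρ, IsMeagre (cyl (σ ++ ρ) ∩ V) ∨ IsMeagre (cyl (σ ++ ρ) ∩ Vᶜ) := by
  rcases h σ with h1 | h1
  · obtain ⟨z, hz⟩ := cone_of_wins (b := 0) (by omega) (sat_invariant V (cc σ)) h1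
    obtain ⟨s, hs, h2⟩ := case_one hV hz
    by_contra hc
    push Not at hc
    obtain ⟨X, h3, d, hd, h4⟩ := exists_cols (W := Vᶜ) (σ := σ) (fun ρ => (hc ρ).2) s hs true
    obtain ⟨n, hn⟩ := (h2 X d hd h4).exists
    exact h3 n hn
  · obtain ⟨z, hz⟩ := cone_of_wins (b := 1) (by omega)
      (compl_invariant (sat_invariant V (cc σ))) h1
    obtain ⟨s, hs, h2⟩ := case_two hV (σ := σ) (z := z) hz
    by_contra hc
    push Not at hc
    obtain ⟨X, h3, d, hd, h4⟩ := exists_cols (W := V) (σ := σ) (fun ρ => (hc ρ).1) s hs false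
    exact h2 X d hd h4 (Frequently.of_forall h3)

/-- The player who moves at the places `n` with `Z n = b` has a winning strategy in the game with
moves from the set `X` in which this player wants the play to be in `A`. -/
def Wins {X : Type*} (b : Bool) (Z : ℕ → Bool) (A : Set (ℕ → X)) : Prop :=
  ∃ ρ : List X → X, ∀ x : ℕ → X, (∀ n, Z n = b → x n = ρ ((List.range n).map x)) → x ∈ A

theorem main {X : Type*} (A : Set (ℕ → X))
    (h1 : ∀ σ, Determined (sat {Z | Wins true Z A} (cc σ)))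
    (h2 : ∀ σ, Determined (sat {Z | ¬ Wins false Z Aᶜ} (cc σ))) (σ : List Bool) :
    ∃ (τ : List Bool) (s : ℕ → ℕ), StrictMono s ∧
      ((∀ Z ∈ cyl (σ ++ τ), (∃ᶠ k in atTop, Full true s Z k) → Wins true Z A) ∨
        (∀ Z ∈ cyl (σ ++ τ), (∃ᶠ k in atTop, Full false s Z k) → Wins false Z Aᶜ) ∨
        (∀ Z ∈ cyl (σ ++ τ), (∃ᶠ k in atTop, Full true s Z k) → (∃ᶠ k in atTop, Full false s Z k) →
          ¬ Wins true Z A ∧ ¬ Wins false Z Aᶜ)) := by
  have up1 : ∀ a b : ℕ → Bool, a ∈ {Z | Wins true Z A} → (∀ n, a n = true → b n = true) →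
      b ∈ {Z | Wins true Z A} := by
    rintro a b ⟨ρ, hρ⟩ hab
    exact ⟨ρ, fun x hx => hρ x fun n hn => hx n (hab n hn)⟩
  have up2 : ∀ a b : ℕ → Bool, a ∈ {Z | ¬ Wins false Z Aᶜ} → (∀ n, a n = true → b n = true) →
      b ∈ {Z | ¬ Wins false Z Aᶜ} := by
    rintro a b ha hab ⟨ρ, hρ⟩
    refine ha ⟨ρ, fun x hx => hρ x fun n hn => hx n ?_⟩
    cases h : a n
    · rfl
    · rw [hab n h] at hn
      cases hn
  -- closure under moving towards `true` or `false`
  have mv : ∀ V : Set (ℕ → Bool), (∀ a b : ℕ → Bool, a ∈ V → (∀ n, a n = true → b n = true) → b ∈ V) →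
      (∀ a b : ℕ → Bool, a ∈ V → (∀ n, b n ≠ a n → b n = true) → b ∈ V) ∧
      (∀ a b : ℕ → Bool, a ∈ Vᶜ → (∀ n, b n ≠ a n → b n = false) → b ∈ Vᶜ) := by
    intro V hV
    constructor
    · intro a b ha hab
      refine hV a b ha fun n hn => ?_
      by_cases h : b n = a n
      · rw [h, hn]
      · exact hab n h
    · intro a b ha hab hb
      refine ha (hV b a hb fun n hn => ?_)
      by_cases h : b n = a n
      · rw [← h, hn]
      · rw [hab n h] at hn
        cases hn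
  have hsub : ∀ {σ τ : List Bool} {V : Set (ℕ → Bool)}, IsMeagre (cyl σ ∩ V) →
      IsMeagre (cyl (σ ++ τ) ∩ V) := fun h =>
    h.mono (Set.inter_subset_inter_left _ (cyl_subset (List.prefix_append _ _)))
  obtain ⟨ρ, hρ | hρ⟩ := local_of_determined up1 h1 σ
  · obtain ⟨ρ', hρ' | hρ'⟩ := local_of_determined up2 h2 (σ ++ ρ)
    · -- the player `false` wins
      obtain ⟨s, hs, h3⟩ := blocks_of_comeagre (W := {Z | ¬ Wins false Z Aᶜ}ᶜ) false
        (τ := σ ++ ρ ++ ρ') (mv _ up2).2 (by rw [compl_compl]; exact hρ')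
      refine ⟨ρ ++ ρ', s, hs, Or.inr (Or.inl fun Z hZ hf => ?_)⟩
      rw [← List.append_assoc] at hZ
      have h4 := h3 Z hZ hf
      simpa using h4
    · obtain ⟨s, hs, h3⟩ := blocks_of_comeagre (W := {Z | ¬ Wins false Z Aᶜ}) true
        (τ := σ ++ ρ ++ ρ') (mv _ up2).1 hρ'
      obtain ⟨s', hs', h3'⟩ := blocks_of_comeagre (W := {Z | Wins true Z A}ᶜ) false
        (τ := σ ++ ρ ++ ρ') (mv _ up1).2 (by rw [compl_compl]; exact hsub hρ)
      obtain ⟨r, hr, hr'⟩ := exists_coarser s s' hs hs'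
      refine ⟨ρ ++ ρ', r, hr, Or.inr (Or.inr fun Z hZ hf hf' => ⟨?_, ?_⟩)⟩
      · rw [← List.append_assoc] at hZ
        exact h3' Z hZ (hr' false Z hf').2
      · rw [← List.append_assoc] at hZ
        exact h3 Z hZ (hr' true Z hf).1
  · obtain ⟨s, hs, h3⟩ := blocks_of_comeagre (W := {Z | Wins true Z A}) true
      (τ := σ ++ ρ) (mv _ up1).1 hρ
    exact ⟨ρ, s, hs, Or.inl h3⟩

end Pool.Agent.H554T
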